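import Pool.Agent.H70.OQ.Targets

set_option autoImplicit false

namespace Pool.Agent.H42.OQ.NST

open Pool.Agent.H70.OQ Pool.Agent.H6.NB

theorem nst : T_NST := by
  intro n i
  induction i with
  | zero =>
    refine ⟨fun p => ?_, fun p p' h => ?_, fun w hw => ?_⟩
    · show (List.ofFn (p : Fin n → Bool)).length = _
      simp
    · exact List.ofFn_injective h
    · have hw' : w.length = n := by simpa using hw
      subst hw'
      exact ⟨(fun j => w.get j : Fin w.length → Bool), List.ofFn_get w⟩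
  | succ i ih =>
    obtain ⟨h1, h2, h3⟩ := ih
    have har : (2 ^ (i + 1 + 1) - 1) * n = (2 ^ (i + 1) - 1) * n + 2 ^ (i + 1) * n := by
      rw [← Nat.add_mul]
      congr 1
      have : 1 ≤ 2 ^ (i + 1) := Nat.one_le_two_pow
      have h2 : 2 ^ (i + 1 + 1) = 2 ^ (i + 1) + 2 ^ (i + 1) := by ring
      omega
    refine ⟨fun p => ?_, fun p p' h => ?_, fun w hw => ?_⟩
    · show (nstr n i p.1 ++ List.ofFn (p.2 : Ys n i)).length = _
      rw [List.length_append, h1, List.length_ofFn, har]
    · have h' : nstr n i p.1 ++ List.ofFn (p.2 : Ys n i) =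
          nstr n i p'.1 ++ List.ofFn (p'.2 : Ys n i) := h
      obtain ⟨e1, e2⟩ := List.append_inj h' (by rw [h1, h1])
      exact Prod.ext (h2 _ _ e1) (List.ofFn_injective e2)
    · obtain ⟨p, hp⟩ := h3 (w.take ((2 ^ (i + 1) - 1) * n)) (by
        rw [List.length_take, hw, har]; exact min_eq_left (Nat.le_add_right _ _))
      have hd : (w.drop ((2 ^ (i + 1) - 1) * n)).length = 2 ^ (i + 1) * n := by
        rw [List.length_drop, hw, har]
        exact Nat.add_sub_cancel_left _ _
      obtain ⟨v, hv⟩ : ∃ v, v = w.drop ((2 ^ (i + 1) - 1) * n) := ⟨_, rfl⟩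
      rw [← hv] at hd
      have hy : ∃ y : Fin (2 ^ (i + 1) * n) → Bool, List.ofFn y = v := by
        rw [← hd]
        exact ⟨fun j => v.get j, List.ofFn_get v⟩
      obtain ⟨y, hy⟩ := hy
      refine ⟨(p, y), ?_⟩
      show nstr n i p ++ List.ofFn y = w
      rw [hp, hy, hv, List.take_append_drop]

end Pool.Agent.H42.OQ.NST
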