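import Pool.Agent.H70.OQ.Targets

set_option autoImplicit false

namespace Pool.Agent.H42.OQ.UNG

open Pool.Agent.H70.OQ Pool.Agent.H6.NB

theorem alt_map (R R' : List Bool → Prop) (f : List Bool → List Bool)
    (h1 : ∀ w, R w → R' (f w)) (h2 : ∀ w, R' w → R w ∧ f w = w) (k : ℕ) :
    ∀ (b : Bool) (Q : List (List Bool) → Prop),
      Alt R b k (fun ws => Q (ws.map f)) ↔ Alt R' b k Q := by
  induction k with
  | zero =>
    intro b Q
    cases b <;> exact Iff.rfl
  | succ k ih =>
    intro b Q
    cases b with
    | true =>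
      constructor
      · rintro ⟨w, hw, h⟩
        exact ⟨f w, h1 w hw, (ih false (fun ws => Q (f w :: ws))).1 h⟩
      · rintro ⟨w, hw, h⟩
        obtain ⟨h3, h4⟩ := h2 w hw
        refine ⟨w, h3, ?_⟩
        have := (ih false (fun ws => Q (w :: ws))).2 h
        simpa [List.map_cons, h4] using this
    | false =>
      constructor
      · intro h w hw
        obtain ⟨h3, h4⟩ := h2 w hw
        have h5 : Alt R true k (fun ws => Q (f w :: ws.map f)) := h w h3
        rw [h4] at h5
        exact (ih true (fun ws => Q (w :: ws))).1 h5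
      · intro h w hw
        exact (ih true (fun ws => Q (f w :: ws))).2 (h (f w) (h1 w hw))

/-- truncation -/
def tr (m : ℕ) (w : List Bool) : List Bool := if w.length ≤ m then w else []

open Classical in
/-- the universal machine -/
noncomputable def prog {k : ℕ} (V : ℕ → Machine k) (s : List Bool) (ws : List (List Bool)) : DT :=
  if h : ∃ p : ℕ × List Bool, s = inst (V p.1).c p.1 p.2 then
    (V h.choose.1).tree h.choose.2
      (ws.map (tr (h.choose.2.length ^ (V h.choose.1).c + (V h.choose.1).c)))
  else DT.leaf false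

theorem inst_inj (h1 : T_COD) {c c' i i' : ℕ} {x x' : List Bool} (h : inst c i x = inst c' i' x') :
    i = i' ∧ x = x' := by
  obtain ⟨h2, h3, -⟩ := h1.1 _ _ _ _ _ _ h
  refine ⟨?_, h2⟩
  have := congrArg List.length h3
  simpa using this

theorem inst_len (h1 : T_COD) (c i : ℕ) (x : List Bool) :
    (x.length ^ c + c + 1) ^ 2 ≤ (inst c i x).length := by
  unfold inst
  rw [h1.2]
  omega

theorem prog_inst (h1 : T_COD) {k : ℕ} (V : ℕ → Machine k) (i : ℕ) (x : List Bool)
    (ws : List (List Bool)) :
    prog V (inst (V i).c i x) ws = (V i).tree x (ws.map (tr (x.length ^ (V i).c + (V i).c))) := by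
  have h : ∃ p : ℕ × List Bool, inst (V i).c i x = inst (V p.1).c p.1 p.2 := ⟨(i, x), rfl⟩
  unfold prog
  rw [dif_pos h]
  obtain ⟨e1, e2⟩ := inst_inj h1 h.choose_spec
  rw [← e2, ← e1]

theorem ung (h1 : Pool.Agent.H6.NB.T_COD) : T_UNG := by
  intro k V
  refine ⟨prog V, ?_, ?_⟩
  · intro s ws hk _
    by_cases h : ∃ p : ℕ × List Bool, s = inst (V p.1).c p.1 p.2
    · obtain ⟨⟨i, x⟩, hs⟩ := h
      have hs' : s = inst (V i).c i x := hs
      have h2 := inst_len h1 (V i).c i x
      rw [← hs'] at h2
      have h3 : (x.length ^ (V i).c + (V i).c) ^ 2 ≤ s.length :=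
        le_trans (Nat.pow_le_pow_left (Nat.le_succ _) 2) h2
      have hlen : (ws.map (tr (x.length ^ (V i).c + (V i).c))).length = k := by
        rw [List.length_map, hk]
      have hsm : ∀ w ∈ ws.map (tr (x.length ^ (V i).c + (V i).c)),
          w.length ≤ x.length ^ (V i).c + (V i).c := by
        intro w hw
        obtain ⟨w', -, rfl⟩ := List.mem_map.1 hw
        unfold tr
        split_ifs with h4
        · exact h4
        · exact Nat.zero_le _
      rw [hs'] at h3 ⊢
      rw [prog_inst h1]
      exact ⟨le_trans (Nat.pow_le_pow_left ((V i).depth_le x _ hlen hsm) 2) h3,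
        x.length ^ (V i).c + (V i).c, h3, (V i).short x _ hlen hsm⟩
    · have : prog V s ws = DT.leaf false := by
        unfold prog
        rw [dif_neg h]
      rw [this]
      exact ⟨by simp [DT.depth], 0, by simp, trivial⟩
  · intro i x O
    have h2 := inst_len h1 (V i).c i x
    have h3 : (x.length ^ (V i).c + (V i).c) ^ 2 ≤ (inst (V i).c i x).length :=
      le_trans (Nat.pow_le_pow_left (Nat.le_succ _) 2) h2
    have hmain := alt_map (fun w => w.length ^ 2 ≤ (inst (V i).c i x).length)
      (fun w => w.length ≤ x.length ^ (V i).c + (V i).c) (tr (x.length ^ (V i).c + (V i).c))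
      (by
        intro w _
        unfold tr
        split_ifs with h4
        · exact h4
        · exact Nat.zero_le _)
      (by
        intro w hw
        refine ⟨le_trans (Nat.pow_le_pow_left hw 2) h3, ?_⟩
        unfold tr
        rw [if_pos hw])
      k true (fun ws => ((V i).tree x ws).eval O = true)
    unfold acck
    simp only [prog_inst h1]
    exact hmain.symm

end Pool.Agent.H42.OQ.UNG
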